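import Mathlib
import Pool.Agent.H442R2.EHI.PntErr
import Pool.Agent.H343R2.EH.Primes
import Pool.Agent.H343R2.EH.Psi

/-!
Primes in residue classes to small moduli, in intervals `(x - x / (log x) ^ A, x]` (helper210).
-/

set_option autoImplicit false

namespace Pool.Agent.Helper210.Half

open Finset Filter

lemma ev_log (k : ℕ) (c : ℝ) : ∃ x0 : ℕ, ∀ x : ℕ, x0 ≤ x → c * Real.log x ^ k ≤ √x := by
  have h1 : (fun x : ℝ => Real.log x ^ (k : ℝ)) =o[Filter.atTop] fun x : ℝ => x ^ (1 / 2 : ℝ) :=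
    isLittleO_log_rpow_rpow_atTop (k : ℝ) (by norm_num)
  have h2 : (fun x : ℝ => c * Real.log x ^ (k : ℝ)) =o[Filter.atTop] fun x : ℝ => x ^ (1 / 2 : ℝ) :=
    h1.const_mul_left c
  have h3 := (h2.comp_tendsto (tendsto_natCast_atTop_atTop (R := ℝ))).def (c := 1) one_pos
  rw [Filter.eventually_atTop] at h3
  obtain ⟨x0, hx0⟩ := h3
  refine ⟨x0, fun x hx => ?_⟩
  have h4 := hx0 x hx
  simp only [Function.comp, one_mul, Real.rpow_natCast] at h4
  have h5 : ‖(x : ℝ) ^ (1 / 2 : ℝ)‖ = √x := by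
    rw [Real.sqrt_eq_rpow, Real.norm_of_nonneg (by positivity)]
  rw [h5] at h4
  exact (le_abs_self _).trans h4

lemma ev_L (c : ℝ) : ∃ x0 : ℕ, ∀ x : ℕ, x0 ≤ x → c ≤ Real.log x := by
  have h := (Real.tendsto_log_atTop.comp (tendsto_natCast_atTop_atTop (R := ℝ))).eventually_ge_atTop c
  rw [Filter.eventually_atTop] at h
  obtain ⟨x0, hx0⟩ := h
  exact ⟨x0, fun x hx => hx0 x hx⟩

/-- Siegel-Walfisz, from the unsmoothed theorem of `Pool.Agent.H343R2`. -/
lemma sw (U K : ℕ) : ∃ y0 : ℕ, ∀ y : ℕ, y0 ≤ y → ∀ q : ℕ, 1 ≤ q → (q : ℝ) ≤ Real.log y ^ K →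
    ∀ c : ℕ, c < q → c.Coprime q →
    |H343E.piAP y q c - H343E.pi1 y / (Nat.totient q : ℝ)| ≤ y / Real.log y ^ U := by
  obtain ⟨B, x0, h0⟩ := H343E.primes_of U (H343E.unsmoothed (U + 2))
  obtain ⟨x1, h1⟩ := ev_log (2 * K + B) 1
  obtain ⟨x2, h2⟩ := ev_L 1
  refine ⟨max (max x0 x1) (max x2 1), fun y hy q hq hqy c hc hcop => ?_⟩
  have hy0 : x0 ≤ y := le_trans (le_trans (le_max_left _ _) (le_max_left _ _)) hy
  have hy1 : x1 ≤ y := le_trans (le_trans (le_max_right _ _) (le_max_left _ _)) hy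
  have hy2 : x2 ≤ y := le_trans (le_trans (le_max_left _ _) (le_max_right _ _)) hy
  have hy3 : 1 ≤ y := le_trans (le_trans (le_max_right _ _) (le_max_right _ _)) hy
  have hyR : (1 : ℝ) ≤ y := by exact_mod_cast hy3
  have hL := h2 y hy2
  have hL0 : 0 < Real.log y := by linarith
  have hA := h1 y hy1
  rw [one_mul, pow_add, pow_mul'] at hA
  have hsq : √(y : ℝ) ≤ y := by
    rw [Real.sqrt_le_left (by positivity)]
    nlinarith
  have hq1 : (1 : ℝ) ≤ q := by exact_mod_cast hq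
  have hD2 : (q : ℝ) ^ 2 ≤ 1 * y / Real.log y ^ B := by
    rw [le_div_iff₀ (by positivity), one_mul]
    refine le_trans ?_ (hA.trans hsq)
    gcongr
  have hD1 : (q : ℝ) ≤ y / Real.log y ^ B := by
    rw [one_mul] at hD2
    refine le_trans ?_ hD2
    nlinarith
  have h4 := h0 y hy0 1 le_rfl q hD1 hD2 (fun q' => if q' = q then {c} else ∅)
    ⟨fun q' a ha => by
      split_ifs at ha with hh
      · rw [mem_singleton] at ha
        rw [ha, hh]
        exact ⟨hc, hcop⟩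
      · simp at ha, fun q' => by
      split_ifs <;> simp⟩
  rw [one_mul] at h4
  refine le_trans ?_ h4
  have h5 := single_le_sum (f := fun q' => ∑ a ∈ (if q' = q then ({c} : Finset ℕ) else ∅),
    |H343E.piAP y q' a - H343E.pi1 y / (Nat.totient q' : ℝ)|)
    (s := Icc 1 q) (fun i _ => sum_nonneg (fun _ _ => abs_nonneg _)) (mem_Icc.2 ⟨hq, le_rfl⟩)
  refine le_trans (le_of_eq ?_) h5
  simp

/-- the logarithmic sum over a short interval -/
lemma lis_sub {y x : ℕ} (h2 : 2 ≤ y) (hyx : y ≤ x) :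
    ((x : ℝ) - y) / Real.log x ≤ H442R2.EHI.lis x - H442R2.EHI.lis y := by
  have hx2 : 2 ≤ x := h2.trans hyx
  have hlx : 0 < Real.log x := Real.log_pos (by exact_mod_cast (by omega : 1 < x))
  unfold H442R2.EHI.lis
  have hsplit : Icc 2 x = Icc 2 y ∪ Ioc y x := by
    ext n; simp only [mem_Icc, mem_union, mem_Ioc]; omega
  have hdisj : Disjoint (Icc 2 y) (Ioc y x) := by
    rw [Finset.disjoint_left]; intro n hn hn'
    simp only [mem_Icc, mem_Ioc] at hn hn'; omega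
  rw [hsplit, sum_union hdisj, add_sub_cancel_left]
  have hcard : ((x : ℝ) - y) = (Ioc y x).card := by
    rw [Nat.card_Ioc, Nat.cast_sub hyx]
  rw [hcard, div_eq_mul_one_div, ← nsmul_eq_mul]
  refine card_nsmul_le_sum _ _ _ (fun n hn => ?_)
  rw [mem_Ioc] at hn
  have hn1 : (1 : ℝ) < n := by exact_mod_cast (by omega : 1 < n)
  have hln : 0 < Real.log n := Real.log_pos hn1
  apply one_div_le_one_div_of_le hln
  exact Real.log_le_log (by linarith) (by exact_mod_cast hn.2)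

/-- primes in a residue class to a small modulus, in a short interval -/
theorem prime_ap (A : ℕ) : ∃ x0 : ℕ, ∀ x : ℕ, x0 ≤ x → ∀ q : ℕ, 1 ≤ q → (q : ℝ) ≤ Real.log x →
    ∀ a : ℕ, a < q → a.Coprime q → ∃ p : ℕ, p.Prime ∧ p ≡ a [MOD q] ∧ p ≤ x ∧
      (x : ℝ) - p ≤ x / Real.log x ^ A := by
  obtain ⟨U, hU⟩ : ∃ U : ℕ, U = A + 3 := ⟨_, rfl⟩
  obtain ⟨y0, hsw⟩ := sw U 2
  obtain ⟨C, hC⟩ := H442R2.EHI.pnt_err U
  obtain ⟨x1, hx1⟩ := ev_log (A + 1) 2
  obtain ⟨x2, hx2⟩ := ev_L (max 4 (4 * (2 ^ U + 1 + |C| * (2 ^ U + 1)) + 1))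
  refine ⟨max (max (2 * y0 + 4) x1) (max x2 16), fun x hx q hq hqx a haq hac => ?_⟩
  have hxa : 2 * y0 + 4 ≤ x := le_trans (le_trans (le_max_left _ _) (le_max_left _ _)) hx
  have hxb : x1 ≤ x := le_trans (le_trans (le_max_right _ _) (le_max_left _ _)) hx
  have hxc : x2 ≤ x := le_trans (le_trans (le_max_left _ _) (le_max_right _ _)) hx
  have hxd : 16 ≤ x := le_trans (le_trans (le_max_right _ _) (le_max_right _ _)) hx
  have hxR : (16 : ℝ) ≤ x := by exact_mod_cast hxd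
  have hx0 : (0 : ℝ) < x := by linarith
  obtain ⟨L, hLdef⟩ : ∃ L : ℝ, L = Real.log x := ⟨_, rfl⟩
  have hL := hx2 x hxc
  rw [← hLdef] at hL hqx ⊢
  have hL4 : 4 ≤ L := (le_max_left _ _).trans hL
  have hLc : 4 * (2 ^ U + 1 + |C| * (2 ^ U + 1)) + 1 ≤ L := (le_max_right _ _).trans hL
  have hL0 : 0 < L := by linarith
  have hsq := hx1 x hxb
  rw [← hLdef] at hsq
  -- the length of the interval
  obtain ⟨h, hh⟩ : ∃ h : ℕ, h = ⌊(x : ℝ) / L ^ A⌋₊ := ⟨_, rfl⟩
  have hLA1 : (1 : ℝ) ≤ L ^ A := one_le_pow₀ (by linarith)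
  have hdiv : (x : ℝ) / L ^ A ≤ x := div_le_self hx0.le hLA1
  have hh1 : (h : ℝ) ≤ x / L ^ A := by rw [hh]; exact Nat.floor_le (by positivity)
  -- now use a slightly shorter interval of length at most x / 2
  obtain ⟨g, hg⟩ : ∃ g : ℕ, g = h / 2 := ⟨_, rfl⟩
  have hhx : h ≤ x := by exact_mod_cast hh1.trans hdiv
  have hgx : 2 * g ≤ x := by omega
  have hbig : 2 * L ≤ x / L ^ A := by
    rw [le_div_iff₀ (by positivity)]
    have h1 : 2 * L * L ^ A = 2 * L ^ (A + 1) := by ring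
    rw [h1]
    refine hsq.trans ?_
    rw [Real.sqrt_le_left (by positivity)]
    nlinarith
  have hg1 : (x : ℝ) / L ^ A / 2 - 1 ≤ g := by
    have h1 : (x : ℝ) / L ^ A < h + 1 := by rw [hh]; exact Nat.lt_floor_add_one _
    have h2 : (h : ℝ) ≤ 2 * g + 1 := by exact_mod_cast (by omega : h ≤ 2 * g + 1)
    linarith
  have hg2 : (x : ℝ) / L ^ A / 4 ≤ g := by nlinarith
  obtain ⟨y, hy⟩ : ∃ y : ℕ, y = x - g := ⟨_, rfl⟩
  have hyx : y ≤ x := by omega
  have hyg : (x : ℝ) - y = g := by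
    rw [hy, Nat.cast_sub (by omega)]; ring
  have hy2 : x ≤ 2 * y := by omega
  have hy0' : y0 ≤ y := by omega
  have hy22 : 2 ≤ y := by omega
  have hyR : (x : ℝ) / 2 ≤ y := by
    have : (x : ℝ) ≤ 2 * y := by exact_mod_cast hy2
    linarith
  have hy1 : (0 : ℝ) < y := by linarith
  have hlogy : L / 2 ≤ Real.log y := by
    have h1 : Real.log (x / 2) ≤ Real.log y := Real.log_le_log (by positivity) hyR
    rw [Real.log_div (by positivity) (by norm_num), ← hLdef] at h1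
    have h2 : Real.log 2 ≤ 1 := by
      have := Real.log_two_lt_d9; linarith
    linarith
  have hlogy' : Real.log y ≤ L := by
    rw [hLdef]; exact Real.log_le_log hy1 (by exact_mod_cast hyx)
  have hlogy0 : 0 < Real.log y := by linarith
  by_contra hcon
  push Not at hcon
  -- no primes in the interval
  have hcount : H343E.piAP x q a ≤ H343E.piAP y q a := by
    unfold H343E.piAP
    norm_cast
    apply card_le_card
    intro p hp
    rw [mem_filter, mem_Icc] at hp ⊢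
    refine ⟨⟨hp.1.1, ?_⟩, hp.2⟩
    by_contra hpy
    push Not at hpy
    have h1 := hcon p hp.2.1 hp.2.2 hp.1.2
    have h2 : (x : ℝ) - p ≤ g := by
      rw [← hyg]
      have : (y : ℝ) ≤ p := by exact_mod_cast hpy.le
      linarith
    have h3 : (g : ℝ) ≤ h := by exact_mod_cast (by omega : g ≤ h)
    linarith
  have hq2x : (q : ℝ) ≤ Real.log x ^ 2 := by
    rw [← hLdef]; nlinarith
  have hq2y : (q : ℝ) ≤ Real.log y ^ 2 := by
    nlinarith
  have e1 := hsw x (by omega) q hq hq2x a haq hac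
  have e2 := hsw y hy0' q hq hq2y a haq hac
  rw [← hLdef] at e1
  have hφ : (0 : ℝ) < (Nat.totient q : ℝ) := by exact_mod_cast Nat.totient_pos.2 (by omega)
  have hφq : (Nat.totient q : ℝ) ≤ L := by
    have : (Nat.totient q : ℝ) ≤ q := by exact_mod_cast Nat.totient_le q
    linarith
  have hyU : (y : ℝ) / Real.log y ^ U ≤ 2 ^ U * (x / L ^ U) := by
    rw [div_le_iff₀ (by positivity)]
    have h1 : (L / 2) ^ U ≤ Real.log y ^ U := by gcongr
    have h2 : (y : ℝ) ≤ x := by exact_mod_cast hyx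
    calc (y : ℝ) ≤ x := h2
      _ = 2 ^ U * (x / L ^ U) * (L / 2) ^ U := by
          rw [div_pow]; field_simp
      _ ≤ 2 ^ U * (x / L ^ U) * Real.log y ^ U := by gcongr
  have e3 : H343E.pi1 x / (Nat.totient q : ℝ) - H343E.pi1 y / (Nat.totient q : ℝ) ≤
      (2 ^ U + 1) * (x / L ^ U) := by
    have h1 := (abs_le.1 e1).1
    have h2 := (abs_le.1 e2).2
    linarith
  have e4 : H343E.pi1 x - H343E.pi1 y ≤ (2 ^ U + 1) * (x / L ^ U) * L := by
    rw [← sub_div, div_le_iff₀ hφ] at e3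
    refine e3.trans ?_
    gcongr
  have f1 := hC x (by omega)
  have f2 := hC y hy22
  have f3 : H442R2.EHI.lis x - H442R2.EHI.lis y - |C| * (2 ^ U + 1) * (x / L ^ U) ≤
      H343E.pi1 x - H343E.pi1 y := by
    rw [← hLdef] at f1
    have h1 : -(C * x / L ^ U) ≤ H343E.pi1 x - H442R2.EHI.lis x := (abs_le.1 f1).1
    have h2 : H343E.pi1 y - H442R2.EHI.lis y ≤ C * y / Real.log y ^ U := (abs_le.1 f2).2
    have h3 : C * x / L ^ U ≤ |C| * (x / L ^ U) := by
      rw [mul_div_assoc]; exact mul_le_mul_of_nonneg_right (le_abs_self _) (by positivity)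
    have h4 : C * y / Real.log y ^ U ≤ |C| * (2 ^ U * (x / L ^ U)) := by
      rw [mul_div_assoc]
      refine (mul_le_mul_of_nonneg_right (le_abs_self C) (by positivity)).trans ?_
      exact mul_le_mul_of_nonneg_left hyU (abs_nonneg _)
    have h5 : |C| * (2 ^ U + 1) * (x / L ^ U) = |C| * (x / L ^ U) + |C| * (2 ^ U * (x / L ^ U)) := by ring
    rw [h5]
    linarith
  have f4 := lis_sub hy22 hyx
  rw [hyg, ← hLdef] at f4
  -- contradiction
  have hfin : (g : ℝ) / L ≤ (2 ^ U + 1) * (x / L ^ U) * L + |C| * (2 ^ U + 1) * (x / L ^ U) := by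
    linarith
  have h5 : (x : ℝ) / L ^ A / 4 / L ≤ (g : ℝ) / L := by gcongr
  have h6 : (x : ℝ) / L ^ U = x / L ^ A / L ^ 3 := by
    rw [hU, pow_add, div_div]
  obtain ⟨W, hW⟩ : ∃ W : ℝ, W = (x : ℝ) / L ^ A := ⟨_, rfl⟩
  have hW0 : 0 < W := by rw [hW]; positivity
  rw [h6, ← hW] at hfin
  rw [← hW] at h5
  have h7 : W / 4 / L ≤ (2 ^ U + 1) * (W / L ^ 3) * L + |C| * (2 ^ U + 1) * (W / L ^ 3) := h5.trans hfin
  have h8 : (2 ^ U + 1) * (W / L ^ 3) * L + |C| * (2 ^ U + 1) * (W / L ^ 3) ≤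
      (2 ^ U + 1 + |C| * (2 ^ U + 1)) * (W / L ^ 2) := by
    have h9 : (W / L ^ 3) * L = W / L ^ 2 := by field_simp
    have h10 : W / L ^ 3 ≤ W / L ^ 2 := by
      apply div_le_div_of_nonneg_left hW0.le (by positivity)
      exact pow_le_pow_right₀ (by linarith) (by norm_num)
    have h11 : |C| * (2 ^ U + 1) * (W / L ^ 3) ≤ |C| * (2 ^ U + 1) * (W / L ^ 2) := by
      gcongr
    calc (2 ^ U + 1) * (W / L ^ 3) * L + |C| * (2 ^ U + 1) * (W / L ^ 3)
        = (2 ^ U + 1) * ((W / L ^ 3) * L) + |C| * (2 ^ U + 1) * (W / L ^ 3) := by ring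
      _ ≤ (2 ^ U + 1) * (W / L ^ 2) + |C| * (2 ^ U + 1) * (W / L ^ 2) := by rw [h9]; linarith
      _ = _ := by ring
  have h12 := h7.trans h8
  have h13 : W / 4 / L = (L / 4) * (W / L ^ 2) := by field_simp
  rw [h13] at h12
  have h14 : 0 < W / L ^ 2 := by positivity
  have h15 := le_of_mul_le_mul_right h12 h14
  linarith

end Pool.Agent.Helper210.Half
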