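import Mathlib
import Pool.Agent.W851.Had.Tower
import Pool.Agent.W69.HH.Paley
import Pool.Agent.Helper210_Half.Primes

/-!
Two half-size families of mutually orthogonal sign vectors in every dimension divisible by four
(helper210).
-/

set_option autoImplicit false

namespace Pool.Agent.Helper210.Half

open Finset Filter Pool.Agent.W851.Had
open Pool.Agent.H108R3.Had (HasHad)

theorem two_pow_le_tow (j : ℕ) : 2 ^ j ≤ tow j := by
  induction j with
  | zero => simp [tow_zero]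
  | succ j ih =>
    rw [tow_succ, pow_succ]
    have h1 : tow j + 1 ≤ 2 ^ tow j := Nat.lt_two_pow_self
    have h2 : ∀ m : ℕ, 2 * m ≤ 2 ^ m := by
      intro m
      induction m with
      | zero => simp
      | succ m ihm =>
        rw [pow_succ]
        have : 1 ≤ 2 ^ m := Nat.one_le_two_pow
        omega
    have h3 := h2 (tow j)
    omega

theorem tow_mono {i j : ℕ} (h : i ≤ j) : tow i ≤ tow j := by
  induction j, h using Nat.le_induction with
  | base => exact le_rfl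
  | succ j _ ih =>
    refine ih.trans ?_
    rw [tow_succ]
    exact Nat.lt_two_pow_self.le

theorem sq_le_two_pow (y : ℕ) : y ^ 2 ≤ 2 ^ (y + 1) := by
  induction y with
  | zero => simp
  | succ y ih =>
    rcases Nat.lt_or_ge y 3 with h | h
    · interval_cases y <;> norm_num
    · have h1 : (y + 1) ^ 2 ≤ 2 * y ^ 2 := by nlinarith
      calc (y + 1) ^ 2 ≤ 2 * y ^ 2 := h1
        _ ≤ 2 * 2 ^ (y + 1) := Nat.mul_le_mul_left _ ih
        _ = 2 ^ (y + 1 + 1) := by rw [pow_succ 2 (y + 1)]; ring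

/-- towers beat exponentials -/
theorem tow_beats (C : ℕ) (hC : 2 ≤ C) : ∃ j0 : ℕ, ∀ j : ℕ, j0 ≤ j → C ^ (j + 4) + 3 ≤ tow j := by
  obtain ⟨L, hL⟩ : ∃ L : ℕ, L = C := ⟨_, rfl⟩
  refine ⟨L + 11, fun j hj => ?_⟩
  induction j, hj using Nat.le_induction with
  | base =>
    have h1 : 2 ^ (L + 10) ≤ tow (L + 10) := two_pow_le_tow _
    have h2 : tow (L + 11) = 2 ^ tow (L + 10) := tow_succ _
    have h3 : 2 ^ (2 ^ (L + 10)) ≤ tow (L + 11) := by
      rw [h2]; exact Nat.pow_le_pow_right (by norm_num) h1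
    refine le_trans ?_ h3
    have h4 : C ≤ 2 ^ L := by rw [hL]; exact Nat.lt_two_pow_self.le
    have h5 : C ^ (L + 11 + 4) ≤ 2 ^ (L * (L + 15)) := by
      rw [pow_mul]
      exact Nat.pow_le_pow_left h4 _
    have h6 : L * (L + 15) + 2 ≤ 2 ^ (L + 10) := by
      have h7 := sq_le_two_pow L
      have h8 : L + 1 ≤ 2 ^ L := Nat.lt_two_pow_self
      have h9 : 2 ^ (L + 10) = 1024 * 2 ^ L := by rw [pow_add]; ring
      have h10 : 2 ^ (L + 1) = 2 * 2 ^ L := by rw [pow_succ]; ring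
      rw [h9]
      rw [h10] at h7
      nlinarith
    have h11 : 3 ≤ 2 ^ (L * (L + 15) + 1) := by
      have : 2 ^ 2 ≤ 2 ^ (L * (L + 15) + 1) := Nat.pow_le_pow_right (by norm_num) (by
        have : 1 ≤ L * (L + 15) := Nat.mul_pos (by omega) (by omega)
        omega)
      omega
    calc C ^ (L + 11 + 4) + 3 ≤ 2 ^ (L * (L + 15)) + 2 ^ (L * (L + 15) + 1) := by omega
      _ ≤ 2 ^ (L * (L + 15) + 2) := by
          rw [pow_succ 2 (L * (L + 15)), pow_add 2 (L * (L + 15)) 2]; omega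
      _ ≤ 2 ^ (2 ^ (L + 10)) := Nat.pow_le_pow_right (by norm_num) h6
  | succ j hj ih =>
    rw [tow_succ]
    obtain ⟨y, hy⟩ : ∃ y : ℕ, y = C ^ (j + 4) := ⟨_, rfl⟩
    have hyC : C ≤ y := by
      rw [hy]
      calc C = C ^ 1 := (pow_one C).symm
        _ ≤ C ^ (j + 4) := Nat.pow_le_pow_right (by omega) (by omega)
    have h1 : C ^ (j + 1 + 4) = C * y := by rw [hy, ← pow_succ']
    rw [← hy] at ih
    rw [h1]
    have h2 : C * y ≤ y ^ 2 := by rw [pow_two]; exact Nat.mul_le_mul_right _ hyC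
    have h3 := sq_le_two_pow y
    have h4 : 2 ^ (y + 3) ≤ 2 ^ tow j := Nat.pow_le_pow_right (by norm_num) ih
    have h5 : 2 ^ (y + 3) = 4 * 2 ^ (y + 1) := by
      rw [show y + 3 = (y + 1) + 2 by ring, pow_add]; ring
    have h6 : 1 ≤ 2 ^ (y + 1) := Nat.one_le_two_pow
    omega

/-- for large `n` there is `k` with `n ≤ tow k` and `2 ^ C ^ (k + 1)` at most a quarter of `log n` -/
theorem small_pow (C : ℕ) (hC : 2 ≤ C) : ∃ n0 : ℕ, ∀ n : ℕ, n0 ≤ n → ∃ k : ℕ, n ≤ tow k ∧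
    ((2 ^ C ^ (k + 1) : ℕ) : ℝ) ≤ Real.log n / 4 := by
  obtain ⟨j0, hj0⟩ := tow_beats C hC
  refine ⟨tow (j0 + 3) + 1, fun n hn => ?_⟩
  have hex : ∃ k, n ≤ tow k := ⟨n, Nat.lt_two_pow_self.le.trans (two_pow_le_tow n)⟩
  classical
  obtain ⟨k, hk⟩ : ∃ k, k = Nat.find hex := ⟨_, rfl⟩
  have hk1 : n ≤ tow k := by rw [hk]; exact Nat.find_spec hex
  have hk2 : j0 + 4 ≤ k := by
    by_contra h
    have h1 : tow k ≤ tow (j0 + 3) := tow_mono (by omega)
    omega
  have hk3 : tow (k - 1) < n := by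
    have := Nat.find_min hex (m := k - 1) (by omega)
    omega
  refine ⟨k, hk1, ?_⟩
  obtain ⟨j, hj⟩ : ∃ j, k = j + 3 := ⟨k - 3, by omega⟩
  have h1 := hj0 j (by omega)
  have h2 : tow (k - 1) = 2 ^ tow (j + 1) := by
    rw [show k - 1 = (j + 1) + 1 by omega, tow_succ]
  have h3 : tow (j + 1) = 2 ^ tow j := tow_succ j
  have h4 : ((2 ^ tow (j + 1) : ℕ) : ℝ) < n := by rw [← h2]; exact_mod_cast hk3
  have h5 : (tow (j + 1) : ℝ) * Real.log 2 ≤ Real.log n := by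
    rw [← Real.log_pow]
    refine Real.log_le_log (by positivity) ?_
    push_cast at h4
    exact h4.le
  have h6 : (1 : ℝ) / 2 ≤ Real.log 2 := by have := Real.log_two_gt_d9; linarith
  have h7 : 8 * 2 ^ C ^ (k + 1) ≤ tow (j + 1) := by
    rw [h3, hj]
    calc 8 * 2 ^ C ^ (j + 3 + 1) = 2 ^ (C ^ (j + 4) + 3) := by rw [pow_add 2 (C ^ (j + 4)) 3]; ring
      _ ≤ 2 ^ tow j := Nat.pow_le_pow_right (by norm_num) h1
  have h8 : (8 : ℝ) * ((2 ^ C ^ (k + 1) : ℕ) : ℝ) ≤ tow (j + 1) := by exact_mod_cast h7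
  have h9 : (0 : ℝ) ≤ tow (j + 1) := Nat.cast_nonneg _
  nlinarith

/-- two Hadamard matrices side by side, with either sign -/
theorem sides {a b : ℕ} (ha : HasHad a) (hb : HasHad b) (hab : b ≤ a) :
    ∃ X Y : Matrix (Fin b) (Fin (a + b)) ℤ, (∀ i j, X i j = 1 ∨ X i j = -1) ∧
      (∀ i j, Y i j = 1 ∨ Y i j = -1) ∧
      X * X.transpose = ((a + b : ℕ) : ℤ) • (1 : Matrix (Fin b) (Fin b) ℤ) ∧
      Y * Y.transpose = ((a + b : ℕ) : ℤ) • (1 : Matrix (Fin b) (Fin b) ℤ) ∧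
      X * Y.transpose = ((a - b : ℕ) : ℤ) • (1 : Matrix (Fin b) (Fin b) ℤ) := by
  obtain ⟨A, hA, hAA⟩ := ha
  obtain ⟨B, hB, hBB⟩ := hb
  have key : ∀ s t : ℤ, (Matrix.of fun (i : Fin b) (j : Fin (a + b)) =>
      (Fin.addCases (fun j => A (Fin.castLE hab i) j) (fun j => s * B i j) j : ℤ)) *
      (Matrix.of fun (i : Fin b) (j : Fin (a + b)) =>
      (Fin.addCases (fun j => A (Fin.castLE hab i) j) (fun j => t * B i j) j : ℤ)).transpose =
      ((a : ℤ) + s * t * b) • (1 : Matrix (Fin b) (Fin b) ℤ) := by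
    intro s t
    ext i j
    rw [Matrix.mul_apply, Fin.sum_univ_add]
    simp only [Matrix.transpose_apply, Matrix.of_apply, Fin.addCases_left, Fin.addCases_right]
    have h1 := congrFun (congrFun hAA (Fin.castLE hab i)) (Fin.castLE hab j)
    have h2 := congrFun (congrFun hBB i) j
    rw [Matrix.mul_apply] at h1 h2
    simp only [Matrix.transpose_apply] at h1 h2
    rw [h1]
    have h3 : ∑ x, s * B i x * (t * B j x) = s * t * ∑ x, B i x * B j x := by
      rw [Finset.mul_sum]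
      exact Finset.sum_congr rfl fun x _ => by ring
    rw [h3, h2]
    by_cases hij : i = j
    · subst hij
      simp
    · have hij' : Fin.castLE hab i ≠ Fin.castLE hab j := by
        intro h; exact hij (Fin.castLE_injective hab h)
      simp [Matrix.one_apply_ne hij, Matrix.one_apply_ne hij']
  refine ⟨_, _, ?_, ?_, (key 1 1).trans ?_, (key (-1) (-1)).trans ?_, (key 1 (-1)).trans ?_⟩
  · intro i j
    refine Fin.addCases (fun j => ?_) (fun j => ?_) j
    · simp only [Matrix.of_apply, Fin.addCases_left]; exact hA _ _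
    · simp only [Matrix.of_apply, Fin.addCases_right, one_mul]; exact hB _ _
  · intro i j
    refine Fin.addCases (fun j => ?_) (fun j => ?_) j
    · simp only [Matrix.of_apply, Fin.addCases_left]; exact hA _ _
    · simp only [Matrix.of_apply, Fin.addCases_right]
      rcases hB i j with h | h <;> rw [h] <;> norm_num
  · congr 1; push_cast; ring
  · congr 1; push_cast; ring
  · congr 1
    rw [Nat.cast_sub hab]; ring

theorem main (A : ℕ) : ∃ n0 : ℕ, ∀ n : ℕ, n0 ≤ n → 4 ∣ n →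
    ∃ m : ℕ, 2 * m ≤ n ∧ (n : ℝ) - 2 * m ≤ n / Real.log n ^ A ∧
    ∃ X Y : Matrix (Fin m) (Fin n) ℤ, (∀ i j, X i j = 1 ∨ X i j = -1) ∧
      (∀ i j, Y i j = 1 ∨ Y i j = -1) ∧
      X * X.transpose = (n : ℤ) • (1 : Matrix (Fin m) (Fin m) ℤ) ∧
      Y * Y.transpose = (n : ℤ) • (1 : Matrix (Fin m) (Fin m) ℤ) ∧
      X * Y.transpose = ((n - 2 * m : ℕ) : ℤ) • (1 : Matrix (Fin m) (Fin m) ℤ) := by
  obtain ⟨C, hC, hhad⟩ := main_had
  obtain ⟨n1, hn1⟩ := small_pow C hC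
  obtain ⟨x0, hx0⟩ := prime_ap (A + 1)
  obtain ⟨n2, hn2⟩ := ev_L (2 ^ (A + 2) + 4)
  refine ⟨max (max n1 (4 * x0 + 16)) n2, fun n hn h4 => ?_⟩
  have hna : n1 ≤ n := le_trans (le_trans (le_max_left _ _) (le_max_left _ _)) hn
  have hnb : 4 * x0 + 16 ≤ n := le_trans (le_trans (le_max_right _ _) (le_max_left _ _)) hn
  have hnc : n2 ≤ n := le_trans (le_max_right _ _) hn
  obtain ⟨k, hk, hpow⟩ := hn1 n hna
  obtain ⟨T, hT⟩ : ∃ T : ℕ, T = C ^ (k + 1) := ⟨_, rfl⟩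
  rw [← hT] at hpow
  have hT2 : 2 ≤ T := by
    rw [hT]
    calc 2 ≤ C := hC
      _ = C ^ 1 := (pow_one C).symm
      _ ≤ C ^ (k + 1) := Nat.pow_le_pow_right (by omega) (by omega)
  obtain ⟨v, hv⟩ := h4
  obtain ⟨x, hx⟩ : ∃ x : ℕ, x = 2 * v - 1 := ⟨_, rfl⟩
  have hxx0 : x0 ≤ x := by omega
  have hnR : (16 : ℝ) ≤ n := by exact_mod_cast (by omega : 16 ≤ n)
  have hn0 : (0 : ℝ) < n := by linarith
  obtain ⟨L, hL⟩ : ∃ L : ℝ, L = Real.log n := ⟨_, rfl⟩
  have hLbig := hn2 n hnc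
  rw [← hL] at hLbig hpow ⊢
  have hA0 : (0 : ℝ) < 2 ^ (A + 2) := by positivity
  have hL4 : 4 ≤ L := by linarith
  have hxn : (n : ℝ) / 4 ≤ x := by
    rw [div_le_iff₀ (by norm_num)]
    exact_mod_cast (by omega : n ≤ x * 4)
  have hxn2 : (x : ℝ) ≤ n / 2 := by
    rw [le_div_iff₀ (by norm_num)]
    exact_mod_cast (by omega : x * 2 ≤ n)
  have hxpos : (0 : ℝ) < x := by linarith
  have hlogx : L / 2 ≤ Real.log x := by
    have h1 : Real.log (n / 4) ≤ Real.log x := Real.log_le_log (by positivity) hxn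
    rw [Real.log_div (by positivity) (by norm_num), ← hL] at h1
    have h2 : Real.log 4 ≤ 2 := by
      rw [show (4 : ℝ) = 2 ^ 2 by norm_num, Real.log_pow]
      have := Real.log_two_lt_d9
      push_cast; linarith
    linarith
  have hq : ((2 ^ T : ℕ) : ℝ) ≤ Real.log x := by linarith
  obtain ⟨p, hp, hpa, hpx, hpd⟩ := hx0 x hxx0 (2 ^ T) Nat.one_le_two_pow hq ((n - 1) % 2 ^ T)
    (Nat.mod_lt _ (by positivity)) (by
      have h1 : (n - 1).Coprime (2 ^ T) := by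
        apply Nat.Coprime.pow_right
        rw [Nat.coprime_two_right]
        rw [Nat.odd_iff]
        omega
      rw [Nat.Coprime] at h1 ⊢
      rw [← Nat.gcd_rec, Nat.gcd_comm]
      exact h1)
  have hpn : p ≡ n - 1 [MOD 2 ^ T] := hpa.trans (Nat.mod_modEq _ _)
  have hp4 : p % 4 = 3 := by
    have h1 : p ≡ n - 1 [MOD 2 ^ 2] := hpn.of_dvd (pow_dvd_pow 2 hT2)
    have h2 : p % 4 = (n - 1) % 4 := h1
    omega
  have hpos := hp.two_le
  have hpn2 : p + 1 ≤ n - (p + 1) := by omega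
  have hdvd : 2 ^ T ∣ n - (p + 1) := by
    have h1 : (p + 1) ≡ n [MOD 2 ^ T] := by
      have := hpn.add_right 1
      rwa [Nat.sub_add_cancel (by omega)] at this
    exact (Nat.modEq_iff_dvd' (by omega)).1 h1
  obtain ⟨r, hr⟩ := hdvd
  have hrtow : r ≤ tow k := by
    have h1 : r ≤ 2 ^ T * r := Nat.le_mul_of_pos_left _ (by positivity)
    omega
  have ha : HasHad (n - (p + 1)) := by
    rw [hr]; exact hhad k r T hrtow hT.ge
  haveI : Fact p.Prime := ⟨hp⟩
  have hb : HasHad (p + 1) := Pool.Agent.W69.HH.paley hp4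
  obtain ⟨X, Y, hX, hY, hXX, hYY, hXY⟩ := sides ha hb hpn2
  have hsum : n - (p + 1) + (p + 1) = n := by omega
  refine ⟨p + 1, by omega, ?_, ?_⟩
  · -- the defect
    have h1 : (n : ℝ) - 2 * ((p + 1 : ℕ) : ℝ) = 2 * ((x : ℝ) - p) := by
      have h2 : (n : ℝ) = 2 * x + 2 := by exact_mod_cast (by omega : n = 2 * x + 2)
      rw [h2]; push_cast; ring
    rw [h1]
    have h2 : (x : ℝ) / Real.log x ^ (A + 1) ≤ (n / 2) / (L / 2) ^ (A + 1) := by
      gcongr
    have h3 : 2 * ((n : ℝ) / 2 / (L / 2) ^ (A + 1)) ≤ n / L ^ A := by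
      have h4 : 2 * ((n : ℝ) / 2 / (L / 2) ^ (A + 1)) = (n / L ^ A) * (2 ^ (A + 1) / L) := by
        rw [div_pow, pow_succ L A]
        field_simp
      rw [h4]
      have h5 : (2 : ℝ) ^ (A + 1) / L ≤ 1 := by
        rw [div_le_one (by linarith)]
        have : (2 : ℝ) ^ (A + 1) ≤ 2 ^ (A + 2) := pow_le_pow_right₀ (by norm_num) (by omega)
        linarith
      have h6 : (0 : ℝ) ≤ n / L ^ A := by positivity
      nlinarith
    linarith
  · have e : ((n - (p + 1)) - (p + 1) : ℕ) = n - 2 * (p + 1) := by omega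
    rw [e] at hXY
    have key : ∀ N : ℕ, N = n - (p + 1) + (p + 1) →
        ∃ X Y : Matrix (Fin (p + 1)) (Fin N) ℤ, (∀ i j, X i j = 1 ∨ X i j = -1) ∧
        (∀ i j, Y i j = 1 ∨ Y i j = -1) ∧
        X * X.transpose = (N : ℤ) • (1 : Matrix (Fin (p + 1)) (Fin (p + 1)) ℤ) ∧
        Y * Y.transpose = (N : ℤ) • (1 : Matrix (Fin (p + 1)) (Fin (p + 1)) ℤ) ∧
        X * Y.transpose = ((n - 2 * (p + 1) : ℕ) : ℤ) •
          (1 : Matrix (Fin (p + 1)) (Fin (p + 1)) ℤ) := by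
      rintro N rfl
      exact ⟨X, Y, hX, hY, hXX, hYY, hXY⟩
    exact key n hsum.symm

end Pool.Agent.Helper210.Half
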